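import Mathlib

open MvPolynomial

open scoped Pointwise

namespace Pool.Agent.Results.MP_d06a13_ag.DepthGap

/-- `I` is a squarefree monomial ideal of `K[x_v : v ∈ σ]`: a proper ideal generated by a set of
products of distinct variables. -/
def IsSquarefreeMonomialIdeal {σ K : Type*} [Field K] (I : Ideal (MvPolynomial σ K)) : Prop :=
  I ≠ ⊤ ∧ ∃ S : Set (Finset σ),
    I = Ideal.span ((fun s : Finset σ => ∏ v ∈ s, (X v : MvPolynomial σ K)) '' S)

/-- The v-number of `I`: the least degree `d` of a form `f` such that the ideal `(I : f)` is an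
associated prime of `I` (and `⊤` if there is no such form). -/
noncomputable def vNumber {σ K : Type*} [Field K] (I : Ideal (MvPolynomial σ K)) : ℕ∞ :=
  ⨅ d ∈ {d : ℕ | ∃ f : MvPolynomial σ K, f.IsHomogeneous d ∧
    ∃ p ∈ associatedPrimes (MvPolynomial σ K) (MvPolynomial σ K ⧸ I),
      Submodule.colon I {f} = p}, (d : ℕ∞)

/-- The depth of `R/I`, `R = K[x_v : v ∈ σ]`, with respect to the ideal generated by the variables:
the supremum of the lengths of the `R/I`-regular sequences contained in that ideal. -/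
noncomputable def depthQuot {σ K : Type*} [Field K] (I : Ideal (MvPolynomial σ K)) : ℕ∞ :=
  ⨆ rs ∈ {rs : List (MvPolynomial σ K) |
    (∀ r ∈ rs, r ∈ Ideal.span (Set.range (X : σ → MvPolynomial σ K))) ∧
    RingTheory.Sequence.IsRegular (MvPolynomial σ K ⧸ I) rs}, (rs.length : ℕ∞)

variable {k : ℕ}

/-- index type -/
abbrev V (k : ℕ) : Type := Fin k ⊕ Fin k

/-- the exponent of the product over a finset -/
noncomputable def ex (s : Finset (V k)) : V k →₀ ℕ := ∑ v ∈ s, Finsupp.single v 1

lemma ex_apply (s : Finset (V k)) (v : V k) : ex s v = if v ∈ s then 1 else 0 := by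
  classical
  unfold ex
  rw [Finsupp.finsetSum_apply]
  simp only [Finsupp.single_apply]
  rw [Finset.sum_ite_eq' s v (fun _ => 1)]

lemma prod_eq (K : Type*) [Field K] (s : Finset (V k)) :
    (∏ v ∈ s, (X v : MvPolynomial (V k) K)) = monomial (ex s) 1 := by
  exact (MvPolynomial.monomial_sum_one s (fun v => Finsupp.single v 1)).symm

/-- left block -/
def L (k : ℕ) : Finset (V k) := Finset.univ.image Sum.inl
/-- right block -/
def Rt (k : ℕ) : Finset (V k) := Finset.univ.image Sum.inr

/-- the generating sets -/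
def gens (k : ℕ) : Set (Finset (V k)) :=
  {s | s = L k ∨ s = Rt k ∨ ∃ i j : Fin k, s = {Sum.inl i, Sum.inr j}}

/-- the ideal `(x_1⋯x_k, y_1⋯y_k, x_i y_j)` -/
noncomputable def J (K : Type*) [Field K] (k : ℕ) : Ideal (MvPolynomial (V k) K) :=
  Ideal.span ((fun s : Finset (V k) => ∏ v ∈ s, (X v : MvPolynomial (V k) K)) '' gens k)

/-- bad monomials: those in the ideal -/
def Bad (m : V k →₀ ℕ) : Prop :=
  (∀ i, m (Sum.inl i) ≠ 0) ∨ (∀ j, m (Sum.inr j) ≠ 0) ∨
    ∃ i j, m (Sum.inl i) ≠ 0 ∧ m (Sum.inr j) ≠ 0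

lemma ex_le_iff (s : Finset (V k)) (m : V k →₀ ℕ) : ex s ≤ m ↔ ∀ v ∈ s, m v ≠ 0 := by
  constructor
  · intro h v hv
    have := h v
    rw [ex_apply, if_pos hv] at this
    omega
  · intro h v
    rw [ex_apply]
    split_ifs with hv
    · exact Nat.one_le_iff_ne_zero.mpr (h v hv)
    · exact Nat.zero_le _

lemma mem_J {K : Type*} [Field K] (f : MvPolynomial (V k) K) :
    f ∈ J K k ↔ ∀ m ∈ f.support, Bad m := by
  have h1 : ((fun s : Finset (V k) => ∏ v ∈ s, (X v : MvPolynomial (V k) K)) '' gens k) =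
      ((fun e : V k →₀ ℕ => (monomial e (1 : K) : MvPolynomial (V k) K)) '' (ex '' gens k)) := by
    rw [Set.image_image]
    apply Set.image_congr
    intro s _
    exact prod_eq K s
  unfold J
  rw [h1, mem_ideal_span_monomial_image]
  apply forall₂_congr
  intro m _
  constructor
  · rintro ⟨e, ⟨s, hs, rfl⟩, hle⟩
    rw [ex_le_iff] at hle
    rcases hs with rfl | rfl | ⟨i, j, rfl⟩
    · left
      intro i
      exact hle _ (by simp [L])
    · right; left
      intro j
      exact hle _ (by simp [Rt])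
    · right; right
      exact ⟨i, j, hle _ (by simp), hle _ (by simp)⟩
  · rintro (h | h | ⟨i, j, hi, hj⟩)
    · refine ⟨ex (L k), ⟨L k, Or.inl rfl, rfl⟩, ?_⟩
      rw [ex_le_iff]
      intro v hv
      simp only [L, Finset.mem_image, Finset.mem_univ, true_and] at hv
      obtain ⟨i, rfl⟩ := hv
      exact h i
    · refine ⟨ex (Rt k), ⟨Rt k, Or.inr (Or.inl rfl), rfl⟩, ?_⟩
      rw [ex_le_iff]
      intro v hv
      simp only [Rt, Finset.mem_image, Finset.mem_univ, true_and] at hv
      obtain ⟨i, rfl⟩ := hv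
      exact h i
    · refine ⟨ex {Sum.inl i, Sum.inr j}, ⟨_, Or.inr (Or.inr ⟨i, j, rfl⟩), rfl⟩, ?_⟩
      rw [ex_le_iff]
      intro v hv
      simp only [Finset.mem_insert, Finset.mem_singleton] at hv
      rcases hv with rfl | rfl
      · exact hi
      · exact hj

/-- multiplying by a monomial shifts the support -/
lemma mul_monomial_mem {K : Type*} [Field K] (f : MvPolynomial (V k) K) (e : V k →₀ ℕ) :
    monomial e 1 * f ∈ J K k ↔ ∀ m ∈ f.support, Bad (e + m) := by
  rw [mem_J]
  constructor
  · intro h m hm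
    apply h
    rw [mem_support_iff, coeff_monomial_mul, one_mul]
    exact mem_support_iff.mp hm
  · intro h m hm
    rw [mem_support_iff, coeff_monomial_mul'] at hm
    split_ifs at hm with hle
    · have h2 := h (m - e) (by
        rw [mem_support_iff]
        intro h0
        exact hm (by rw [h0, mul_zero]))
      rwa [add_tsub_cancel_of_le hle] at h2
    · exact absurd rfl hm

lemma X_mul_mem {K : Type*} [Field K] (f : MvPolynomial (V k) K) (v : V k) :
    X v * f ∈ J K k ↔ ∀ m ∈ f.support, Bad (Finsupp.single v 1 + m) :=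
  mul_monomial_mem f (Finsupp.single v 1)

lemma one_notMem {K : Type*} [Field K] (hk : 2 ≤ k) : (1 : MvPolynomial (V k) K) ∉ J K k := by
  rw [mem_J]
  intro h
  have h0 := h 0 (by simp)
  have i0 : Fin k := ⟨0, by omega⟩
  rcases h0 with h | h | ⟨i, j, h, _⟩
  · exact h i0 rfl
  · exact h i0 rfl
  · exact h rfl

lemma J_ne_top {K : Type*} [Field K] (hk : 2 ≤ k) : J K k ≠ ⊤ := by
  rw [Ne, Ideal.eq_top_iff_one]
  exact one_notMem hk

lemma XX_mem {K : Type*} [Field K] (i j : Fin k) :
    (X (Sum.inl i) * X (Sum.inr j) : MvPolynomial (V k) K) ∈ J K k := by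
  have h : (X (Sum.inl i) * X (Sum.inr j) : MvPolynomial (V k) K) =
      ∏ v ∈ ({Sum.inl i, Sum.inr j} : Finset (V k)), X v := by
    rw [Finset.prod_pair (by simp)]
  rw [h]
  exact Ideal.subset_span ⟨_, Or.inr (Or.inr ⟨i, j, rfl⟩), rfl⟩

/-- if `X (inl i) * g ∈ J` or `X (inr i) * g ∈ J` then `g` has zero constant coefficient. -/
lemma coeff_zero_of_X_mul {K : Type*} [Field K] (hk : 2 ≤ k) (v : V k)
    (g : MvPolynomial (V k) K) (h : X v * g ∈ J K k) : coeff 0 g = 0 := by
  by_contra h0
  rw [X_mul_mem] at h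
  have hb := h 0 (mem_support_iff.mpr h0)
  rw [add_zero] at hb
  obtain ⟨i0, i1, h01⟩ : ∃ i0 i1 : Fin k, i0 ≠ i1 :=
    ⟨⟨0, by omega⟩, ⟨1, by omega⟩, by simp [Fin.ext_iff]⟩
  unfold Bad at hb
  simp only [Finsupp.single_apply] at hb
  rcases v with a | a
  · rcases hb with h | h | ⟨i, j, _, h⟩
    · have e0 : a = i0 := by
        by_contra hne
        exact h i0 (by simp [hne])
      have e1 : a = i1 := by
        by_contra hne
        exact h i1 (by simp [hne])
      exact h01 (e0.symm.trans e1)
    · exact h i0 (by simp)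
    · exact h (by simp)
  · rcases hb with h | h | ⟨i, j, h, _⟩
    · exact h i0 (by simp)
    · have e0 : a = i0 := by
        by_contra hne
        exact h i0 (by simp [hne])
      have e1 : a = i1 := by
        by_contra hne
        exact h i1 (by simp [hne])
      exact h01 (e0.symm.trans e1)
    · exact h (by simp)

/-! ### the v-number -/

/-- lower bound for the degree of a form with `(I : f)` prime -/
lemma degree_lower {K : Type*} [Field K] (hk : 2 ≤ k) (f : MvPolynomial (V k) K) (d : ℕ)
    (hf : f.IsHomogeneous d) (hp : (Submodule.colon (J K k) {f}).IsPrime) : k - 1 ≤ d := by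
  classical
  have hmem : ∀ g : MvPolynomial (V k) K, g ∈ Submodule.colon (J K k) {f} ↔ g * f ∈ J K k := by
    intro g
    rw [Submodule.mem_colon_singleton, smul_eq_mul]
  have hfJ : f ∉ J K k := by
    intro h
    apply hp.ne_top
    rw [Ideal.eq_top_iff_one, hmem, one_mul]
    exact h
  obtain ⟨i0, i1, h01⟩ : ∃ i0 i1 : Fin k, i0 ≠ i1 :=
    ⟨⟨0, by omega⟩, ⟨1, by omega⟩, by simp [Fin.ext_iff]⟩
  -- a monomial of `f` outside the ideal
  rw [mem_J] at hfJ
  push Not at hfJ
  obtain ⟨m, hm, hbad⟩ := hfJ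
  have hdeg : ∑ v, m v = d := by
    have h := hf (mem_support_iff.mp hm)
    rw [Finsupp.weight_apply, Finsupp.sum_fintype _ _ (by simp)] at h
    simpa using h
  have hxy : ∀ i j : Fin k, X (Sum.inl i) ∈ Submodule.colon (J K k) {f} ∨
      X (Sum.inr j) ∈ Submodule.colon (J K k) {f} := by
    intro i j
    apply hp.mem_or_mem
    rw [hmem]
    exact Ideal.mul_mem_right _ _ (XX_mem i j)
  have hL : ∃ i, X (Sum.inl i) ∈ Submodule.colon (J K k) {f} := by
    have h : (∏ v ∈ L k, (X v : MvPolynomial (V k) K)) ∈ Submodule.colon (J K k) {f} := by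
      rw [hmem]
      exact Ideal.mul_mem_right _ _ (Ideal.subset_span ⟨_, Or.inl rfl, rfl⟩)
    obtain ⟨v, hv, hv2⟩ := (hp.prod_mem_iff).mp h
    simp only [L, Finset.mem_image, Finset.mem_univ, true_and] at hv
    obtain ⟨i, rfl⟩ := hv
    exact ⟨i, hv2⟩
  have hR : ∃ i, X (Sum.inr i) ∈ Submodule.colon (J K k) {f} := by
    have h : (∏ v ∈ Rt k, (X v : MvPolynomial (V k) K)) ∈ Submodule.colon (J K k) {f} := by
      rw [hmem]
      exact Ideal.mul_mem_right _ _ (Ideal.subset_span ⟨_, Or.inr (Or.inl rfl), rfl⟩)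
    obtain ⟨v, hv, hv2⟩ := (hp.prod_mem_iff).mp h
    simp only [Rt, Finset.mem_image, Finset.mem_univ, true_and] at hv
    obtain ⟨i, rfl⟩ := hv
    exact ⟨i, hv2⟩
  have hB : ∀ v, X v ∈ Submodule.colon (J K k) {f} → Bad (Finsupp.single v 1 + m) := by
    intro v hv
    rw [hmem, X_mul_mem] at hv
    exact hv m hm
  unfold Bad at hbad
  push Not at hbad
  obtain ⟨⟨a, ha⟩, ⟨b, hb⟩, hab⟩ := hbad
  -- lower bound from positivity on all but one index
  have key : ∀ (u : Fin k → V k) (_ : Function.Injective u) (c : Fin k),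
      (∀ i, i ≠ c → m (u i) ≠ 0) → k - 1 ≤ d := by
    intro u hu c hc
    have h1 : ∑ i ∈ Finset.univ.erase c, m (u i) ≤ ∑ v, m v := by
      rw [← Finset.sum_image (f := fun v => m v) (g := u) (fun x _ y _ h => hu h)]
      exact Finset.sum_le_sum_of_subset (Finset.subset_univ _)
    have h2 : ∑ i ∈ Finset.univ.erase c, 1 ≤ ∑ i ∈ Finset.univ.erase c, m (u i) := by
      apply Finset.sum_le_sum
      intro i hi
      exact Nat.one_le_iff_ne_zero.mpr (hc i (Finset.ne_of_mem_erase hi))
    rw [Finset.sum_const, Finset.card_erase_of_mem (Finset.mem_univ _), Finset.card_univ,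
      Fintype.card_fin, smul_eq_mul, mul_one] at h2
    omega
  by_cases hallL : ∀ i, X (Sum.inl i) ∈ Submodule.colon (J K k) {f}
  · -- all the `x_i` are in the prime
    obtain ⟨c, hc⟩ := hR
    by_cases hy : ∃ j, m (Sum.inr j) ≠ 0
    · obtain ⟨j0, hj0⟩ := hy
      have hx0 : ∀ i, m (Sum.inl i) = 0 := by
        intro i
        by_contra h
        exact hj0 (hab i j0 h)
      rcases hB _ hc with h | h | ⟨i, j, h, _⟩
      · exact absurd (by simp [hx0]) (h i0)
      · apply key Sum.inr Sum.inr_injective c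
        intro i hi
        have := h i
        simpa [Finsupp.single_apply, hi.symm] using this
      · exact absurd (by simp [hx0]) h
    · push Not at hy
      -- all the `y` exponents vanish
      exfalso
      have hall : ∀ i, m (Sum.inl i) ≠ 0 := by
        intro i
        obtain ⟨c2, hc2⟩ : ∃ c2 : Fin k, c2 ≠ i := by
          by_cases h : i0 = i
          · exact ⟨i1, fun h2 => h01 (h.trans h2.symm)⟩
          · exact ⟨i0, h⟩
        rcases hB _ (hallL c2) with h | h | ⟨i', j, _, h⟩
        · have := h i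
          simpa [Finsupp.single_apply, hc2] using this
        · exact absurd (by simp [hy]) (h i0)
        · exact absurd (by simp [hy]) h
      exact hall a ha
  · push Not at hallL
    obtain ⟨i', hi'⟩ := hallL
    have hallR : ∀ j, X (Sum.inr j) ∈ Submodule.colon (J K k) {f} := by
      intro j
      rcases hxy i' j with h | h
      · exact absurd h hi'
      · exact h
    obtain ⟨c, hc⟩ := hL
    by_cases hx : ∃ j, m (Sum.inl j) ≠ 0
    · obtain ⟨j0, hj0⟩ := hx
      have hy0 : ∀ i, m (Sum.inr i) = 0 := by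
        intro i
        by_contra h
        exact h (hab j0 i hj0)
      rcases hB _ hc with h | h | ⟨i, j, _, h⟩
      · apply key Sum.inl Sum.inl_injective c
        intro i hi
        have := h i
        simpa [Finsupp.single_apply, hi.symm] using this
      · exact absurd (by simp [hy0]) (h i0)
      · exact absurd (by simp [hy0]) h
    · push Not at hx
      exfalso
      have hall : ∀ i, m (Sum.inr i) ≠ 0 := by
        intro i
        obtain ⟨c2, hc2⟩ : ∃ c2 : Fin k, c2 ≠ i := by
          by_cases h : i0 = i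
          · exact ⟨i1, fun h2 => h01 (h.trans h2.symm)⟩
          · exact ⟨i0, h⟩
        rcases hB _ (hallR c2) with h | h | ⟨i', j, h, _⟩
        · exact absurd (by simp [hx]) (h i0)
        · have := h i
          simpa [Finsupp.single_apply, hc2] using this
        · exact absurd (by simp [hx]) h
      exact hall b hb

/-- the ideal generated by a set of variables is prime -/
lemma isPrime_span_X {K : Type*} [Field K] (A : Set (V k)) :
    (Ideal.span ((X : V k → MvPolynomial (V k) K) '' A)).IsPrime := by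
  classical
  let φ : MvPolynomial (V k) K →ₐ[K] MvPolynomial (V k) K :=
    aeval (fun v => if v ∈ A then 0 else X v)
  have hmono : ∀ e : V k →₀ ℕ, φ (monomial e 1) =
      if (∃ v ∈ A, e v ≠ 0) then 0 else monomial e 1 := by
    intro e
    rw [aeval_monomial, map_one, one_mul]
    split_ifs with h
    · obtain ⟨v, hv, he⟩ := h
      rw [Finsupp.prod]
      apply Finset.prod_eq_zero (Finsupp.mem_support_iff.mpr he)
      rw [if_pos hv, zero_pow he]
    · push Not at h
      rw [monomial_eq, map_one, one_mul]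
      apply Finsupp.prod_congr
      intro v hv
      rw [if_neg]
      intro hA
      exact (Finsupp.mem_support_iff.mp hv) (h v hA)
  have hcoeff : ∀ (f : MvPolynomial (V k) K) (m : V k →₀ ℕ), (∀ v ∈ A, m v = 0) →
      coeff m (φ f) = coeff m f := by
    intro f m hm
    induction f using MvPolynomial.induction_on' with
    | monomial e a =>
      have h1 : monomial e a = C a * monomial e (1 : K) := by rw [C_mul_monomial, mul_one]
      rw [h1, map_mul, hmono, algHom_C, coeff_C_mul]
      rw [show (algebraMap K (MvPolynomial (V k) K)) a = C a from rfl, coeff_C_mul]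
      split_ifs with h
      · obtain ⟨v, hv, he⟩ := h
        rw [coeff_zero, coeff_monomial, if_neg]
        intro h2
        exact he (by rw [h2]; exact hm v hv)
      · rfl
    | add p q hp hq => rw [map_add, coeff_add, coeff_add, hp, hq]
  have hker : Ideal.span ((X : V k → MvPolynomial (V k) K) '' A) = RingHom.ker φ := by
    apply le_antisymm
    · rw [Ideal.span_le]
      rintro _ ⟨v, hv, rfl⟩
      rw [SetLike.mem_coe, RingHom.mem_ker]
      rw [aeval_X, if_pos hv]
    · intro f hf
      rw [RingHom.mem_ker] at hf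
      rw [mem_ideal_span_X_image]
      intro m hm
      by_contra h
      push Not at h
      have h2 := hcoeff f m h
      rw [hf, coeff_zero] at h2
      exact (mem_support_iff.mp hm) h2.symm
  rw [hker]
  exact RingHom.ker_isPrime _

/-- the form of degree `k - 1` -/
lemma colon_form {K : Type*} [Field K] (hk : 2 ≤ k) (c : Fin k) :
    Submodule.colon (J K k) {(∏ v ∈ (L k).erase (Sum.inl c), (X v : MvPolynomial (V k) K))} =
      Ideal.span ((X : V k → MvPolynomial (V k) K) ''
        {v | v = Sum.inl c ∨ ∃ j, v = Sum.inr j}) := by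
  classical
  obtain ⟨c', hc'⟩ : ∃ c' : Fin k, c' ≠ c := by
    by_cases h : (⟨0, by omega⟩ : Fin k) = c
    · refine ⟨⟨1, by omega⟩, ?_⟩
      rw [← h]
      simp [Fin.ext_iff]
    · exact ⟨_, h⟩
  have hmemE : ∀ i : Fin k, ex ((L k).erase (Sum.inl c)) (Sum.inl i) = if i = c then 0 else 1 := by
    intro i
    rw [ex_apply]
    simp only [Finset.mem_erase, L, Finset.mem_image, Finset.mem_univ, true_and]
    by_cases h : i = c
    · simp [h]
    · simp [h]
  have hmemE' : ∀ i : Fin k, ex ((L k).erase (Sum.inl c)) (Sum.inr i) = 0 := by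
    intro i
    rw [ex_apply]
    simp [L]
  ext g
  rw [Submodule.mem_colon_singleton, smul_eq_mul, prod_eq, mul_comm, mul_monomial_mem,
    mem_ideal_span_X_image]
  apply forall₂_congr
  intro m _
  constructor
  · rintro (h | h | ⟨i, j, _, h⟩)
    · refine ⟨Sum.inl c, Or.inl rfl, ?_⟩
      have := h c
      rw [Finsupp.add_apply, hmemE, if_pos rfl, zero_add] at this
      exact this
    · refine ⟨Sum.inr c, Or.inr ⟨c, rfl⟩, ?_⟩
      have := h c
      rw [Finsupp.add_apply, hmemE', zero_add] at this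
      exact this
    · refine ⟨Sum.inr j, Or.inr ⟨j, rfl⟩, ?_⟩
      rw [Finsupp.add_apply, hmemE', zero_add] at h
      exact h
  · rintro ⟨v, hv | ⟨j, rfl⟩, hm⟩
    · left
      intro i
      rw [Finsupp.add_apply, hmemE]
      by_cases h : i = c
      · rw [if_pos h, zero_add, h, ← hv]
        exact hm
      · rw [if_neg h]
        omega
    · right; right
      refine ⟨c', j, ?_, ?_⟩
      · rw [Finsupp.add_apply, hmemE, if_neg hc']
        omega
      · rw [Finsupp.add_apply, hmemE', zero_add]
        exact hm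

lemma mem_associatedPrimes {K : Type*} [Field K] (f : MvPolynomial (V k) K)
    (p : Ideal (MvPolynomial (V k) K)) (hp : p.IsPrime)
    (h : Submodule.colon (J K k) {f} = p) :
    p ∈ associatedPrimes (MvPolynomial (V k) K) (MvPolynomial (V k) K ⧸ J K k) := by
  have h1 : Submodule.colon (⊥ : Submodule (MvPolynomial (V k) K)
      (MvPolynomial (V k) K ⧸ J K k)) {Ideal.Quotient.mk (J K k) f} = p := by
    rw [← h]
    ext g
    rw [Submodule.mem_colon_singleton, Submodule.mem_colon_singleton, Submodule.mem_bot,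
      smul_eq_mul, ← Ideal.Quotient.eq_zero_iff_mem]
    rfl
  refine ⟨hp, Ideal.Quotient.mk (J K k) f, ?_⟩
  rw [h1, hp.radical]

lemma vNumber_J {K : Type*} [Field K] (hk : 2 ≤ k) : vNumber (J K k) = ((k - 1 : ℕ) : ℕ∞) := by
  classical
  apply le_antisymm
  · unfold vNumber
    apply iInf₂_le
    have i0 : Fin k := ⟨0, by omega⟩
    refine ⟨∏ v ∈ (L k).erase (Sum.inl i0), X v, ?_, _, ?_, colon_form hk i0⟩
    · have h := MvPolynomial.IsHomogeneous.prod ((L k).erase (Sum.inl i0))
        (fun v => (X v : MvPolynomial (V k) K)) (fun _ => 1) (fun v _ => isHomogeneous_X K v)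
      rw [Finset.sum_const, Finset.card_erase_of_mem (by simp [L]), smul_eq_mul, mul_one] at h
      have hc : (L k).card = k := by
        unfold L
        rw [Finset.card_image_of_injective _ Sum.inl_injective, Finset.card_univ,
          Fintype.card_fin]
      rwa [hc] at h
    · exact mem_associatedPrimes _ _ (isPrime_span_X _) (colon_form hk i0)
  · unfold vNumber
    apply le_iInf₂
    rintro d ⟨f, hf, p, hp, h⟩
    have hp2 : (Submodule.colon (J K k) {f}).IsPrime := by
      rw [h]
      exact hp.isPrime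
    exact_mod_cast degree_lower hk f d hf hp2

/-! ### the depth -/

/-- the sum of all the variables -/
noncomputable def allX (K : Type*) [Field K] (k : ℕ) : MvPolynomial (V k) K := ∑ v, X v

lemma coeff_allX {K : Type*} [Field K] (v : V k) :
    coeff (Finsupp.single v 1) (allX K k) = 1 := by
  classical
  unfold allX
  rw [coeff_sum, Finset.sum_eq_single v]
  · rw [coeff_X, if_pos rfl]
  · intro w _ hw
    rw [coeff_X, if_neg]
    intro h
    exact hw ((Finsupp.single_left_inj one_ne_zero).mp h)
  · intro h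
    exact absurd (Finset.mem_univ _) h

lemma allX_regular {K : Type*} [Field K] (hk : 2 ≤ k) (g : MvPolynomial (V k) K)
    (h : allX K k * g ∈ J K k) : g ∈ J K k := by
  classical
  -- reduce to the primes generated by variables
  have main : ∀ A : Set (V k), (∃ v, v ∉ A) →
      (J K k ≤ Ideal.span ((X : V k → MvPolynomial (V k) K) '' A)) →
      g ∈ Ideal.span ((X : V k → MvPolynomial (V k) K) '' A) := by
    intro A hA hle
    obtain ⟨v, hv⟩ := hA
    rcases (isPrime_span_X (K := K) A).mem_or_mem (hle h) with h1 | h1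
    · exfalso
      rw [mem_ideal_span_X_image] at h1
      obtain ⟨w, hw, hw2⟩ := h1 (Finsupp.single v 1) (by
        rw [mem_support_iff, coeff_allX]
        exact one_ne_zero)
      rw [Finsupp.single_apply] at hw2
      split_ifs at hw2 with h3
      · exact hv (h3 ▸ hw)
      · exact hw2 rfl
    · exact h1
  rw [mem_J]
  intro m hm
  by_contra hbad
  unfold Bad at hbad
  push Not at hbad
  obtain ⟨⟨a, ha⟩, ⟨b, hb⟩, hab⟩ := hbad
  obtain ⟨i0, i1, h01⟩ : ∃ i0 i1 : Fin k, i0 ≠ i1 :=
    ⟨⟨0, by omega⟩, ⟨1, by omega⟩, by simp [Fin.ext_iff]⟩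
  have other : ∀ c : Fin k, ∃ c', c' ≠ c := by
    intro c
    by_cases h : i0 = c
    · exact ⟨i1, fun h2 => h01 (h.trans h2.symm)⟩
    · exact ⟨i0, h⟩
  by_cases hy : ∃ j, m (Sum.inr j) ≠ 0
  · -- then all x exponents vanish: use A = {y_b} ∪ {x_i}
    obtain ⟨j0, hj0⟩ := hy
    have hx0 : ∀ i, m (Sum.inl i) = 0 := by
      intro i
      by_contra h
      exact hj0 (hab i j0 h)
    have h2 := main {v | v = Sum.inr b ∨ ∃ i, v = Sum.inl i} (by
      obtain ⟨c, hc⟩ := other b
      refine ⟨Sum.inr c, ?_⟩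
      rintro (h | ⟨i, h⟩)
      · exact hc (Sum.inr_injective h)
      · exact absurd h (by simp)) (by
      intro f hf
      rw [mem_J] at hf
      rw [mem_ideal_span_X_image]
      intro n hn
      rcases hf n hn with h | h | ⟨i, _, h, _⟩
      · exact ⟨Sum.inl i0, Or.inr ⟨i0, rfl⟩, h i0⟩
      · exact ⟨Sum.inr b, Or.inl rfl, h b⟩
      · exact ⟨Sum.inl i, Or.inr ⟨i, rfl⟩, h⟩)
    rw [mem_ideal_span_X_image] at h2
    obtain ⟨v, hv | ⟨i, rfl⟩, h3⟩ := h2 m hm
    · exact h3 (hv ▸ hb)
    · exact h3 (hx0 i)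
  · push Not at hy
    have h2 := main {v | v = Sum.inl a ∨ ∃ i, v = Sum.inr i} (by
      obtain ⟨c, hc⟩ := other a
      refine ⟨Sum.inl c, ?_⟩
      rintro (h | ⟨i, h⟩)
      · exact hc (Sum.inl_injective h)
      · exact absurd h (by simp)) (by
      intro f hf
      rw [mem_J] at hf
      rw [mem_ideal_span_X_image]
      intro n hn
      rcases hf n hn with h | h | ⟨_, i, _, h⟩
      · exact ⟨Sum.inl a, Or.inl rfl, h a⟩
      · exact ⟨Sum.inr i0, Or.inr ⟨i0, rfl⟩, h i0⟩
      · exact ⟨Sum.inr i, Or.inr ⟨i, rfl⟩, h⟩)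
    rw [mem_ideal_span_X_image] at h2
    obtain ⟨v, hv | ⟨i, rfl⟩, h3⟩ := h2 m hm
    · exact h3 (hv ▸ ha)
    · exact h3 (hy i)

/-- regularity on `R/J` in elementary terms -/
lemma regular_iff {K : Type*} [Field K] (a : MvPolynomial (V k) K) :
    IsSMulRegular (MvPolynomial (V k) K ⧸ J K k) a ↔
      ∀ g, a * g ∈ J K k → g ∈ J K k := by
  rw [isSMulRegular_quotient_iff_mem_of_smul_mem]
  rfl

lemma mem_smul_top {K : Type*} [Field K] (a g : MvPolynomial (V k) K) :
    (Ideal.Quotient.mk (J K k) g) ∈ a • (⊤ : Submodule (MvPolynomial (V k) K)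
      (MvPolynomial (V k) K ⧸ J K k)) ↔ ∃ c, g - a * c ∈ J K k := by
  rw [Submodule.mem_smul_pointwise_iff_exists]
  constructor
  · rintro ⟨y, _, hy⟩
    obtain ⟨c, rfl⟩ := Ideal.Quotient.mk_surjective y
    refine ⟨c, ?_⟩
    rw [← Ideal.Quotient.eq_zero_iff_mem, map_sub, ← hy, map_mul, sub_eq_zero]
    rfl
  · rintro ⟨c, hc⟩
    refine ⟨Ideal.Quotient.mk (J K k) c, Submodule.mem_top, ?_⟩
    rw [← Ideal.Quotient.eq_zero_iff_mem, map_sub, map_mul, sub_eq_zero] at hc
    rw [hc]
    rfl

/-- every element of the ideal of the variables splits -/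
lemma split_mem {K : Type*} [Field K] (a : MvPolynomial (V k) K)
    (ha : a ∈ Ideal.span (Set.range (X : V k → MvPolynomial (V k) K))) :
    ∃ p q, a = p + q ∧ (∀ i, X (Sum.inl i) * p ∈ J K k) ∧ (∀ j, X (Sum.inr j) * q ∈ J K k) ∧
      (∀ r, (∀ j, X (Sum.inr j) * r ∈ J K k) → p * r ∈ J K k) ∧
      (∀ r, (∀ i, X (Sum.inl i) * r ∈ J K k) → q * r ∈ J K k) := by
  induction ha using Submodule.span_induction with
  | mem x hx =>
    obtain ⟨v, rfl⟩ := hx
    rcases v with i | j
    · refine ⟨0, X (Sum.inl i), by rw [zero_add], fun _ => by rw [mul_zero]; exact Ideal.zero_mem _,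
        fun j => ?_, fun _ _ => by rw [zero_mul]; exact Ideal.zero_mem _, fun r hr => hr i⟩
      rw [mul_comm]
      exact XX_mem i j
    · exact ⟨X (Sum.inr j), 0, by rw [add_zero], fun i => XX_mem i j,
        fun _ => by rw [mul_zero]; exact Ideal.zero_mem _, fun r hr => hr j,
        fun _ _ => by rw [zero_mul]; exact Ideal.zero_mem _⟩
  | zero =>
    exact ⟨0, 0, by rw [add_zero], fun _ => by rw [mul_zero]; exact Ideal.zero_mem _,
        fun _ => by rw [mul_zero]; exact Ideal.zero_mem _,
        fun _ _ => by rw [zero_mul]; exact Ideal.zero_mem _,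
        fun _ _ => by rw [zero_mul]; exact Ideal.zero_mem _⟩
  | add x y _ _ hx hy =>
    obtain ⟨p, q, h1, h2, h3, h4, h5⟩ := hx
    obtain ⟨p', q', h1', h2', h3', h4', h5'⟩ := hy
    refine ⟨p + p', q + q', by rw [h1, h1']; ring, fun i => ?_, fun j => ?_, fun r hr => ?_,
      fun r hr => ?_⟩
    · rw [mul_add]; exact Ideal.add_mem _ (h2 i) (h2' i)
    · rw [mul_add]; exact Ideal.add_mem _ (h3 j) (h3' j)
    · rw [add_mul]; exact Ideal.add_mem _ (h4 r hr) (h4' r hr)
    · rw [add_mul]; exact Ideal.add_mem _ (h5 r hr) (h5' r hr)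
  | smul c x _ hx =>
    obtain ⟨p, q, h1, h2, h3, h4, h5⟩ := hx
    refine ⟨c * p, c * q, by rw [h1, smul_eq_mul]; ring, fun i => ?_, fun j => ?_, fun r hr => ?_,
      fun r hr => ?_⟩
    · rw [mul_left_comm]; exact Ideal.mul_mem_left _ _ (h2 i)
    · rw [mul_left_comm]; exact Ideal.mul_mem_left _ _ (h3 j)
    · rw [mul_assoc]; exact Ideal.mul_mem_left _ _ (h4 r hr)
    · rw [mul_assoc]; exact Ideal.mul_mem_left _ _ (h5 r hr)

lemma no_two {K : Type*} [Field K] (hk : 2 ≤ k) (a b : MvPolynomial (V k) K)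
    (ha : a ∈ Ideal.span (Set.range (X : V k → MvPolynomial (V k) K)))
    (hb : b ∈ Ideal.span (Set.range (X : V k → MvPolynomial (V k) K)))
    (h1 : ∀ g, a * g ∈ J K k → g ∈ J K k)
    (h2 : ∀ g, (∃ c, b * g - a * c ∈ J K k) → ∃ c, g - a * c ∈ J K k) : False := by
  obtain ⟨p, q, e, hp, hq, hp2, hq2⟩ := split_mem a ha
  obtain ⟨p', q', e', hp', hq', hp2', hq2'⟩ := split_mem b hb
  obtain ⟨c, hc⟩ := h2 q ⟨q', by
    have h : b * q - a * q' = p' * q - p * q' := by rw [e, e']; ring
    rw [h]
    exact Ideal.sub_mem _ (hp2' q hq) (hp2 q' hq')⟩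
  have i0 : Fin k := ⟨0, by omega⟩
  have c0 : coeff 0 c = 0 := by
    apply coeff_zero_of_X_mul hk (Sum.inr i0)
    apply h1
    have h : a * (X (Sum.inr i0) * c) =
        X (Sum.inr i0) * q - X (Sum.inr i0) * (q - a * c) := by ring
    rw [h]
    exact Ideal.sub_mem _ (hq i0) (Ideal.mul_mem_left _ _ hc)
  have c1 : coeff 0 (1 - c) = 0 := by
    apply coeff_zero_of_X_mul hk (Sum.inl i0)
    apply h1
    have h : a * (X (Sum.inl i0) * (1 - c)) =
        X (Sum.inl i0) * p + X (Sum.inl i0) * (q - a * c) := by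
      rw [e]; ring
    rw [h]
    exact Ideal.add_mem _ (hp i0) (Ideal.mul_mem_left _ _ hc)
  rw [coeff_sub, c0, sub_zero, coeff_zero_one] at c1
  exact one_ne_zero c1

lemma depth_J {K : Type*} [Field K] (hk : 2 ≤ k) : depthQuot (J K k) = 1 := by
  classical
  apply le_antisymm
  · unfold depthQuot
    apply iSup₂_le
    rintro rs ⟨hrs, hreg⟩
    by_contra hlen
    rw [not_le] at hlen
    have hlen2 : 1 < rs.length := by exact_mod_cast hlen
    match rs, hrs, hreg, hlen2 with
    | a :: b :: tl, hrs, hreg, _ =>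
      rw [RingTheory.Sequence.isRegular_cons_iff, RingTheory.Sequence.isRegular_cons_iff] at hreg
      obtain ⟨ha, hb, _⟩ := hreg
      rw [regular_iff] at ha
      have hb2 := (isSMulRegular_quotient_iff_mem_of_smul_mem _ _).mp hb
      apply no_two hk a b (hrs a (by simp)) (hrs b (by simp)) ha
      rintro g ⟨c, hc⟩
      have h3 := hb2 (Ideal.Quotient.mk (J K k) g) (by
        have h4 : b • Ideal.Quotient.mk (J K k) g = Ideal.Quotient.mk (J K k) (b * g) := rfl
        rw [h4, mem_smul_top]
        exact ⟨c, hc⟩)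
      rwa [mem_smul_top] at h3
  · unfold depthQuot
    have hmem : [allX K k] ∈ {rs : List (MvPolynomial (V k) K) |
        (∀ r ∈ rs, r ∈ Ideal.span (Set.range (X : V k → MvPolynomial (V k) K))) ∧
        RingTheory.Sequence.IsRegular (MvPolynomial (V k) K ⧸ J K k) rs} := by
      refine ⟨?_, ?_⟩
      · intro r hr
        rw [List.mem_singleton] at hr
        rw [hr]
        unfold allX
        exact Ideal.sum_mem _ (fun v _ => Ideal.subset_span ⟨v, rfl⟩)
      · have hne : Nontrivial (QuotSMulTop (allX K k) (MvPolynomial (V k) K ⧸ J K k)) := by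
          rw [Submodule.Quotient.nontrivial_iff]
          intro htop
          have h1 : Ideal.Quotient.mk (J K k) 1 ∈ allX K k • (⊤ : Submodule (MvPolynomial (V k) K)
              (MvPolynomial (V k) K ⧸ J K k)) := by
            rw [htop]
            exact Submodule.mem_top
          rw [mem_smul_top] at h1
          obtain ⟨c, hc⟩ := h1
          rw [mem_J] at hc
          have h0 : coeff 0 (1 - allX K k * c) = 1 := by
            rw [coeff_sub, coeff_zero_one, ← constantCoeff_eq, map_mul]
            have : constantCoeff (allX K k) = 0 := by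
              unfold allX
              rw [map_sum]
              apply Finset.sum_eq_zero
              intro v _
              exact constantCoeff_X K v
            rw [this, zero_mul, sub_zero]
          have hb := hc 0 (by
            rw [mem_support_iff, h0]
            exact one_ne_zero)
          have i0 : Fin k := ⟨0, by omega⟩
          rcases hb with h | h | ⟨i, j, h, _⟩
          · exact h i0 rfl
          · exact h i0 rfl
          · exact h rfl
        exact RingTheory.Sequence.IsRegular.cons ((regular_iff _).mpr (allX_regular hk))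
          (RingTheory.Sequence.IsRegular.nil _ _)
    exact le_iSup₂_of_le [allX K k] hmem (by simp)

/-- For every field `K` and every `k ≥ 2` there is a squarefree monomial ideal `I` in `2k` variables
over `K` with v-number `k - 1` and with `depth (R/I) = 1`. For `k = 3` this is a squarefree monomial
ideal with `v(I) = 2 > 1 = depth (R/I)`. -/
theorem result (K : Type*) [Field K] (k : ℕ) (hk : 2 ≤ k) :
    ∃ I : Ideal (MvPolynomial (Fin k ⊕ Fin k) K), IsSquarefreeMonomialIdeal I ∧
      vNumber I = ((k - 1 : ℕ) : ℕ∞) ∧ depthQuot I = 1 :=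
  ⟨J K k, ⟨J_ne_top hk, gens k, rfl⟩, vNumber_J hk, depth_J hk⟩

end Pool.Agent.Results.MP_d06a13_ag.DepthGap
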